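import Pool.Agent.N783.PF.Final
import Pool.Agent.N783.PF.Jac

/-!
# Rank zero for a positive proportion of all odd hyperelliptic Jacobians over every number field

Let `F` be any number field and `g ≥ 1`. We consider ALL polynomials
`f = x ^ (2 g + 1) + a_(2 g - 1) x ^ (2 g - 1) + ... + a_0` with coefficients in the ring of integers of `F`,
ordered by the height: `|σ a_i| ≤ B ^ (2 g + 1 - i)` for all embeddings `σ : F → ℂ`. (Every hyperelliptic
curve of genus `g` over `F` with a rational Weierstrass point, and for `g = 1` every elliptic curve over
`F`, has an equation `y ^ 2 = f(x)` with such an `f`.)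

Theorem. For a positive proportion of them `f` is irreducible over `F` and the Jacobian `J` of `y ^ 2 = f(x)`
has the following properties over `F`: multiplication by two is bijective on `J(F)`, and all classes of
2-power order in the Tate-Shafarevich group of `J` over `F` are zero.

Here `J(L)` is the Picard group of the affine coordinate ring `L[x, y] / (y ^ 2 - f)` (the curve has one
point at infinity, which is rational), and the Tate-Shafarevich group is defined by continuous cocycles on
the absolute Galois group of `F` with values in `J` of the separable closure which are trivial over the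
completions at all finite places and over `ℝ` for all real embeddings.

By the theorem of Mordell and Weil `J(F)` is a finite group of odd order, so `J` has rank `0` over `F`.

There is no condition on the number field `F`, no condition on the signature, the class group or the primes
over `2`. The proof: a varying finite set `S` of rational primes `q ≡ 1 mod 8`, `f` is `x h(x)` with `h`
irreducible modulo one prime `𝔮` over `q` and irreducible modulo the other ones. Bhargava's
parametrisation of the classes in the 2-Selmer group by self-adjoint operators on lattices over the ring of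
integers, reduction theory and elementary counting over `F` (only upper bounds), quadratic reciprocity for the
Hasse invariants of the trace forms over `ℚ` (in place of global duality), and linear algebra over `F_2` with
inclusion-exclusion over the subsets `J` of `S` give for most of the `f` a `J` such that the 2-Selmer group
of the twist of `f` by the product of the `q ∈ J` is trivial; every polynomial is a twist of boundedly many
weighted members of the family. The passage to the Tate-Shafarevich group is project JB.

Project PF (helper783); the case `F = ℚ` is `MP_a43263_nt.AllOddHyperelliptic` (project PQ); for elliptic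
curves `MP_7cad78_nt.RankZeroEveryNumberField` has the version with minimal equations. Parts of the proof
by helpers 31, 42, 73, 75, 78, 99, 134, 169, 170, 189, 195, 225, 255, 286, 331, 352, 364, 374, 426, 438, 456,
459, 482, 490, 545, 547, 591, 614, 645, 667, 674, 707, 710, 747, 771, 823, 849, 862, 935, 951, 999; JB:
helper352 with 106, 232, 424, 615, 655; definitions of the Jacobian: helper874, helper713.
-/

set_option autoImplicit false
set_option linter.all false

namespace Pool.Agent.Results.MP_1d384c_nt.JacobiansNumberFields

open Polynomial Filter IsDedekindDomain NumberField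
open Pool.Agent.N874.Jac (UniquelyTwoDivisible ShaTwoTrivialReal)
open scoped Classical

section defs

variable {F : Type} [Field F] [NumberField F]

/-- `f` is a monic polynomial of degree `2 g + 1` with integral coefficients, without term of degree
`2 g`, and of height at most `B`: all conjugates of the coefficient of degree `j` are at most
`B ^ (2 g + 1 - j)` in absolute value. -/
structure IsPoly (g B : ℕ) (f : (𝓞 F)[X]) : Prop where
  monic : f.Monic
  degree : f.natDegree = 2 * g + 1
  trace : f.coeff (2 * g) = 0
  height : ∀ j ≤ 2 * g, ∀ σ : F →+* ℂ, ‖σ (f.coeff j : F)‖ ≤ (B : ℝ) ^ (2 * g + 1 - j)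

variable (F)

/-- The polynomials `f` of height at most `B`. -/
def Polys (g B : ℕ) : Set (𝓞 F)[X] := {f | IsPoly g B f}

variable {F}

/-- Multiplication by two is bijective on `J(F)`, `J` the Jacobian of `y ^ 2 = P(x)`, and the 2-primary
part of the Tate-Shafarevich group of `J` over `F` is zero. -/
def NoTwoPart (P : F[X]) : Prop := UniquelyTwoDivisible P ∧ ShaTwoTrivialReal P (𝓞 F)

variable (F)

/-- The polynomials `f` of height at most `B` which are irreducible over `F` and for which the Jacobian
of `y ^ 2 = f(x)` has no 2-part over `F`. -/
def TrivialTwoPart (g B : ℕ) : Set (𝓞 F)[X] :=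
  {f ∈ Polys F g B | Irreducible (f.map (algebraMap (𝓞 F) F)) ∧
    NoTwoPart (f.map (algebraMap (𝓞 F) F))}

end defs

/-- For every `g ≥ 1` and every number field `F` there is a positive constant `c` such that for all large
`B` at least `c` times the number of all the `f` of height at most `B` are irreducible and the Jacobian `J`
of `y ^ 2 = f(x)` is such that multiplication by two is bijective on `J(F)` and the 2-primary part of the
Tate-Shafarevich group of `J` over `F` is zero. -/
theorem result (g : ℕ) (hg : 1 ≤ g) (F : Type) [Field F] [NumberField F] :
    (∀ B : ℕ, (Polys F g B).Finite) ∧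
    ∃ c : ℝ, 0 < c ∧ ∀ᶠ B : ℕ in atTop, 0 < (Polys F g B).ncard ∧
      c * ((Polys F g B).ncard : ℝ) ≤ ((TrivialTwoPart F g B).ncard : ℝ) := by
  have heq : ∀ B, Polys F g B = {f : (𝓞 F)[X] | Pool.Agent.N783.PF.Ht g B f} := by
    intro B
    ext f
    exact ⟨fun h => ⟨h.monic, h.degree, h.trace, fun j hj σ => h.height j hj σ⟩,
      fun h => ⟨h.mon, h.deg, h.tr, fun j hj σ => h.ht j hj σ⟩⟩
  obtain ⟨c, hc, B₀, hB₀⟩ := Pool.Agent.N783.PF.main g F hg
  have hfin : ∀ B : ℕ, (Polys F g B).Finite := by
    intro B
    have h1 := (hB₀ (max B B₀) (le_max_right _ _)).1
    rw [← heq] at h1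
    refine h1.subset fun f hf => ⟨hf.monic, hf.degree, hf.trace, fun j hj σ => ?_⟩
    refine (hf.height j hj σ).trans ?_
    exact pow_le_pow_left₀ (Nat.cast_nonneg _) (by exact_mod_cast le_max_left B B₀) _
  refine ⟨hfin, c, hc, ?_⟩
  filter_upwards [eventually_ge_atTop B₀] with B hB
  obtain ⟨hHt, hle⟩ := hB₀ B hB
  have hsub : {f : (𝓞 F)[X] | Pool.Agent.N783.PF.Ht g B f ∧
      Irreducible (Pool.Agent.N783.PF.fF f) ∧ Pool.Agent.N783.PF.SelZero f ∧
      Pool.Agent.N783.PF.Min g f} ⊆ TrivialTwoPart F g B := by
    rintro f ⟨h1, h3, h4, -⟩
    refine ⟨⟨h1.mon, h1.deg, h1.tr, fun j hj σ => h1.ht j hj σ⟩, h3, ?_⟩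
    exact Pool.Agent.N783.PF.jac h1.mon (by rw [h1.deg]; exact odd_two_mul_add_one g) h3 h4
  have hfin2 : (TrivialTwoPart F g B).Finite := (hfin B).subset fun f hf => hf.1
  have h1 := Set.ncard_le_ncard hsub hfin2
  refine ⟨?_, ?_⟩
  · rw [Set.ncard_pos (hfin B)]
    refine ⟨X ^ (2 * g + 1), monic_X_pow _, natDegree_X_pow _, ?_, fun j hj σ => ?_⟩
    · rw [coeff_X_pow, if_neg (by omega)]
    · rw [coeff_X_pow, if_neg (by omega)]
      have e0 : ((0 : 𝓞 F) : F) = 0 := rfl
      rw [e0, map_zero, norm_zero]
      positivity
  · rw [heq]
    exact hle.trans (by exact_mod_cast h1)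

end Pool.Agent.Results.MP_1d384c_nt.JacobiansNumberFields
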