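import Pool.Agent.N867.AS.M2

/-!
# Rank and order of vanishing for Jacobians of Artin–Schreier curves `y^p - y = f(x, t)` over
`k(t)` with ordinary leading form
-/

set_option autoImplicit false

namespace Pool.Agent.Results.MP_1d384c_nt.LeadingForm

open Polynomial

/-- All monomials `x^m t^n` of `f ∈ k[t][x]` (outer variable `x`, inner variable `t`) satisfy
`b m + a n ≤ g a b`, and those with equality make up `∑_{r ≤ g} Φ_r x^{a r} t^{b (g - r)}`, where
`Φ_r` is the coefficient of `X^r` in `Φ`. -/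
structure Leads {k : Type} [Field k] (a b g : ℕ) (Φ : k[X]) (f : k[X][X]) : Prop where
  wt : ∀ m n, (f.coeff m).coeff n ≠ 0 → b * m + a * n ≤ g * (a * b)
  top : ∀ r ≤ g, (f.coeff (a * r)).coeff (b * (g - r)) = Φ.coeff r

/-- The pairs `u = (u_1, u_2)` of positive integers with `b u_1 + a u_2 = w`. -/
abbrev Lattice (a b w : ℕ) : Type :=
  {u : Fin (w + 1) × Fin (w + 1) //
    0 < (u.1 : ℕ) ∧ 0 < (u.2 : ℕ) ∧ b * (u.1 : ℕ) + a * (u.2 : ℕ) = w}

/-- The matrix with entries the coefficients of `X^{(p v_1 - u_1)/a}` in `Φ^n`, for `u` and `v` in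
`Lattice a b w`. -/
noncomputable def hasseWitt {k : Type} [Field k] (p a b w n : ℕ) (Φ : k[X]) :
    Matrix (Lattice a b w) (Lattice a b w) k :=
  Matrix.of fun u v => (Φ ^ n).coeff ((p * (v.1.1 : ℕ) - (u.1.1 : ℕ)) / a)

/-- For every `w` with `0 < w < g a b` the matrix `hasseWitt` of `Φ^{(p-1)w/(gab)}` is
invertible. -/
def Ordinary {k : Type} [Field k] (p a b g : ℕ) (Φ : k[X]) : Prop :=
  ∀ w, 0 < w → w < g * (a * b) → (hasseWitt p a b w ((p - 1) * w / (g * (a * b))) Φ).det ≠ 0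

/-- `Φ = X^g - c` with `c ≠ 0`. -/
def Diagonal {k : Type} [Field k] (g : ℕ) (Φ : k[X]) : Prop :=
  ∃ c : k, c ≠ 0 ∧ Φ = X ^ g - C c

/-- The value `f(x, t)` at a point with coordinates in an algebraic closure of `k`. -/
noncomputable def value {k : Type} [Field k] (f : k[X][X]) (t x : AlgebraicClosure k) :
    AlgebraicClosure k :=
  f.eval₂ (eval₂RingHom (algebraMap k (AlgebraicClosure k)) t) x

/-- `t, x, y` lie in `F_Q = {z : z^Q = z}` and `y^p - y = f(x, t)`. -/
def IsPoint {k : Type} [Field k] (p : ℕ) (f : k[X][X]) (Q : ℕ) (t x y : AlgebraicClosure k) :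
    Prop :=
  t ^ Q = t ∧ x ^ Q = x ∧ y ^ Q = y ∧ y ^ p - y = value f t x

/-- The number of `(t, x, y)` with coordinates in `F_Q` such that `y^p - y = f(x, t)`. -/
noncomputable def points {k : Type} [Field k] (p : ℕ) (f : k[X][X]) (Q : ℕ) : ℕ :=
  Nat.card {v : AlgebraicClosure k × AlgebraicClosure k × AlgebraicClosure k //
    IsPoint p f Q v.1 v.2.1 v.2.2}

/-- The power series `∑_{m ≥ 1} (q^{2m} - N_m) T^m`, where `q = #k` and
`N_m = points p f (q^m)`. -/
noncomputable def traces {k : Type} [Field k] [Fintype k] (p : ℕ) (f : k[X][X]) :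
    PowerSeries ℚ :=
  PowerSeries.mk fun m => if m = 0 then 0 else
    ((Fintype.card k : ℚ) ^ (2 * m) - (points p f (Fintype.card k ^ m) : ℚ))

/-- `L(T) = exp (∑_{m ≥ 1} (q^{2m} - N_m) T^m / m)`: that is, `L(0) = 1` and
`T L' = L ∑_{m ≥ 1} (q^{2m} - N_m) T^m`. -/
def IsLFunction {k : Type} [Field k] [Fintype k] (p : ℕ) (f : k[X][X]) (L : ℚ[X]) : Prop :=
  L.coeff 0 = 1 ∧
    PowerSeries.X * PowerSeries.derivative ℚ (L : PowerSeries ℚ) =
      (L : PowerSeries ℚ) * traces p f

/-- `y^p - y - f` as a polynomial in `y` over `K[x]`, `K = k(t)`. -/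
noncomputable def curve {k : Type} [Field k] (p : ℕ) (f : k[X][X]) : (RatFunc k)[X][X] :=
  X ^ p - X - C (f.map (algebraMap k[X] (RatFunc k)))

/-- The affine coordinate ring `K[x, y]/(y^p - y - f)` of the curve `y^p - y = f` over
`K = k(t)`. -/
abbrev CoordRing {k : Type} [Field k] (p : ℕ) (f : k[X][X]) : Type := AdjoinRoot (curve p f)

/-- The rank of the ideal class group. -/
noncomputable def classRank (R : Type) [CommRing R] [IsDomain R] : Cardinal :=
  Module.rank ℤ (Additive (ClassGroup R))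

theorem Leads.lead {k : Type} [Field k] {a b g : ℕ} {Φ : k[X]} {f : k[X][X]}
    (h : Leads a b g Φ f) (hΦ : Φ.natDegree = g) : Pool.Agent.N867.AS.Final2.Lead a b g Φ f := by
  refine ⟨h.wt, ?_⟩
  ext r
  rcases Nat.lt_or_ge g r with hr | hr
  · have h1 : Φ.coeff r = 0 := coeff_eq_zero_of_natDegree_lt (by rw [hΦ]; exact hr)
    rw [h1, Pool.Agent.N867.AS.TV.topPoly, finsetSum_coeff]
    refine Finset.sum_eq_zero fun i hi => ?_
    rw [coeff_C_mul, coeff_X_pow, if_neg, mul_zero]
    have := Finset.mem_range.1 hi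
    omega
  · rw [Pool.Agent.N867.AS.RG.top_coeff a b g f hr, h.top r hr]

/-- Let `H_1, …, H_e` be distinct monic irreducible polynomials over `k` with `H_i(0) ≠ 0`, of
total degree `g`, such that `Φ = H_1 ⋯ H_e` is ordinary or of the form `X^g - c`, and let `f` have
leading form `Φ`. Then the `L`-function of the Jacobian of `y^p - y = f` over `K = k(t)` vanishes at
`T = 1/q` to order at most `(p-1)(e-1)`, and if `f` is a product of polynomials `F_i` with leading
forms `H_i`, the class group of `K[x, y]/(y^p - y - f)`, which is the Mordell–Weil group of the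
Jacobian, has rank at least `(p-1)(e-1)`. -/
theorem result (p : ℕ) (hp : p.Prime) (k : Type) [Field k] [Fintype k] [CharP k p] (a b g : ℕ)
    (hab : a.Coprime b) (hga : g * a ∣ p - 1) (hgb : g * b ∣ p - 1) (e : ℕ) (H : Fin e → k[X])
    (hirr : ∀ i, Irreducible (H i)) (hmon : ∀ i, (H i).Monic) (hinj : Function.Injective H)
    (h0 : ∀ i, (H i).coeff 0 ≠ 0) (hdeg : ∑ i, (H i).natDegree = g)
    (hord : Ordinary p a b g (∏ i, H i) ∨ Diagonal g (∏ i, H i)) (f : k[X][X])
    (hf : Leads a b g (∏ i, H i) f) :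
    ∃ _ : IsDomain (CoordRing p f),
      (∀ L : ℚ[X], IsLFunction p f L →
        L.rootMultiplicity (1 / (Fintype.card k : ℚ)) ≤ (p - 1) * (e - 1)) ∧
      ∀ F : Fin e → k[X][X], f = ∏ i, F i → (∀ i, Leads a b (H i).natDegree (H i) (F i)) →
        (((p - 1) * (e - 1) : ℕ) : Cardinal) ≤ classRank (CoordRing p f) := by
  have hp1 : p - 1 ≠ 0 := by
    have := hp.two_le
    omega
  have hga0 : g * a ≠ 0 := fun h => hp1 (by rwa [h, zero_dvd_iff] at hga)
  have hgb0 : g * b ≠ 0 := fun h => hp1 (by rwa [h, zero_dvd_iff] at hgb)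
  have hg : g ≠ 0 := left_ne_zero_of_mul hga0
  have ha : a ≠ 0 := right_ne_zero_of_mul hga0
  have hb : b ≠ 0 := right_ne_zero_of_mul hgb0
  have hΦ : (∏ i, H i).natDegree = g := by
    rw [natDegree_prod_of_monic _ _ fun i _ => hmon i, hdeg]
  have hΦm : (∏ i, H i).Monic := monic_prod_of_monic _ _ fun i _ => hmon i
  have hord' : Pool.Agent.N867.AS.LP.OrdP p a b g (∏ i, H i) := by
    rcases hord with h | ⟨c, hc, h⟩
    · exact h
    · rw [h]
      exact Pool.Agent.N867.AS.LP.ord_diag hp ha hb hab hg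
        (Pool.Agent.N867.AS.TV.dvd_M hab hg hga hgb) hc
  obtain ⟨h1, h2⟩ := Pool.Agent.N867.AS.Final2.main p hp k a b g hab hga hgb e H hirr hmon hinj
    hΦ hord'
  have hdom : IsDomain (CoordRing p f) := by
    have hwg := (hf.lead hΦ).wg ha hb hΦm hΦ
    have hpa : ¬ p ∣ g * a := by
      intro h
      have h3 := Nat.le_of_dvd (Nat.pos_of_ne_zero hp1) (h.trans hga)
      have := hp.two_le
      omega
    refine Pool.Agent.N867.AS.ASR.isDomain_field (M := RatFunc k) hp ?_
    rw [hwg.monic.natDegree_map, hwg.deg]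
    exact hpa
  refine ⟨hdom, fun L hL => h1 f (hf.lead hΦ) L hL.1 hL.2, ?_⟩
  intro F hF hFL
  subst hF
  obtain ⟨_, hdom', h3⟩ := h2 F h0 fun i => (hFL i).lead rfl
  exact h3

end Pool.Agent.Results.MP_1d384c_nt.LeadingForm
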