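import Pool.Agent.N867.AS.K16

/-!
# The order of vanishing and the leading coefficient at `s = 1` for Jacobians of curves
`y_j^p - y_j = f_j(x, t) / x` over the curves `z_i^p - z_i = h_i(t)`
-/

set_option autoImplicit false

namespace Pool.Agent.Results.MP_1d384c_nt.SimplePole

open Polynomial

/-- All monomials `x^m t^n` of `f ∈ k[t][x]` (outer variable `x`, inner variable `t`) satisfy
`b m + a n ≤ a b`, the monomial `x^a` occurs in `f`, and `f(0, t) = H(t)`. -/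
structure HasShape {k : Type} [Field k] (a b : ℕ) (H : k[X]) (f : k[X][X]) : Prop where
  wt : ∀ m n, (f.coeff m).coeff n ≠ 0 → b * m + a * n ≤ a * b
  lead : (f.coeff a).coeff 0 ≠ 0
  zero : f.coeff 0 = H

/-- The number `∑ (1 - (b i + a j)/(b (a - 1)))` over all `i ≥ 0` and `j > 0` with
`b i + a j < b (a - 1)`. -/
noncomputable def hodge (a b : ℕ) : ℚ :=
  ∑ i ∈ Finset.range (b * (a - 1)), ∑ j ∈ Finset.range (b * (a - 1)),
    if 0 < j ∧ b * i + a * j < b * (a - 1) then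
      1 - ((b * i + a * j : ℕ) : ℚ) / ((b * (a - 1) : ℕ) : ℚ) else 0

/-- The value `h(t)` at an element `t` of an algebraic closure of `k`. -/
noncomputable def baseValue {k : Type} [Field k] (h : k[X]) (t : AlgebraicClosure k) :
    AlgebraicClosure k :=
  h.eval₂ (algebraMap k (AlgebraicClosure k)) t

/-- The value `f(x, t)` at a point with coordinates in an algebraic closure of `k`. -/
noncomputable def value {k : Type} [Field k] (f : k[X][X]) (t x : AlgebraicClosure k) :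
    AlgebraicClosure k :=
  f.eval₂ (eval₂RingHom (algebraMap k (AlgebraicClosure k)) t) x

/-- The number of `(t, z_1, …, z_r)` with coordinates in `F_Q = {z : z^Q = z}` such that
`z_i^p - z_i = h_i(t)` for all `i`. -/
noncomputable def basePoints {k : Type} [Field k] (p : ℕ) {r : ℕ} (h : Fin r → k[X]) (Q : ℕ) : ℕ :=
  Nat.card {v : AlgebraicClosure k × (Fin r → AlgebraicClosure k) //
    v.1 ^ Q = v.1 ∧ (∀ i, v.2 i ^ Q = v.2 i) ∧ ∀ i, v.2 i ^ p - v.2 i = baseValue (h i) v.1}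

/-- The number of `(t, x, y_1, …, y_m, z_1, …, z_r)` with coordinates in `F_Q = {z : z^Q = z}`
such that `x ≠ 0`, `(y_j^p - y_j) x = f_j(x, t)` for all `j` and `z_i^p - z_i = h_i(t)` for all
`i`. -/
noncomputable def points {k : Type} [Field k] (p : ℕ) {m r : ℕ} (f : Fin m → k[X][X])
    (h : Fin r → k[X]) (Q : ℕ) : ℕ :=
  Nat.card {v : AlgebraicClosure k × AlgebraicClosure k × (Fin m → AlgebraicClosure k) ×
      (Fin r → AlgebraicClosure k) //
    v.1 ^ Q = v.1 ∧ v.2.1 ^ Q = v.2.1 ∧ v.2.1 ≠ 0 ∧ (∀ j, v.2.2.1 j ^ Q = v.2.2.1 j) ∧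
    (∀ i, v.2.2.2 i ^ Q = v.2.2.2 i) ∧
    (∀ j, (v.2.2.1 j ^ p - v.2.2.1 j) * v.2.1 = value (f j) v.1 v.2.1) ∧
    (∀ i, v.2.2.2 i ^ p - v.2.2.2 i = baseValue (h i) v.1)}

/-- The power series `∑_{n ≥ 1} ((q^n - 1) S_n - N_n) T^n`, where `q = #k`,
`S_n = basePoints p h (q^n)` and `N_n = points p f h (q^n)`. -/
noncomputable def traces {k : Type} [Field k] [Fintype k] (p : ℕ) {m r : ℕ}
    (f : Fin m → k[X][X]) (h : Fin r → k[X]) : PowerSeries ℚ :=
  PowerSeries.mk fun n => if n = 0 then 0 else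
    (((Fintype.card k : ℚ) ^ n - 1) * (basePoints p h (Fintype.card k ^ n) : ℚ) -
      (points p f h (Fintype.card k ^ n) : ℚ))

/-- `L(T) = exp (∑_{n ≥ 1} ((q^n - 1) S_n - N_n) T^n / n)`: that is, `L(0) = 1` and
`T L' = L ∑_{n ≥ 1} ((q^n - 1) S_n - N_n) T^n`. -/
def IsLFunction {k : Type} [Field k] [Fintype k] (p : ℕ) {m r : ℕ} (f : Fin m → k[X][X])
    (h : Fin r → k[X]) (L : ℚ[X]) : Prop :=
  L.coeff 0 = 1 ∧
    PowerSeries.X * PowerSeries.derivative ℚ (L : PowerSeries ℚ) =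
      (L : PowerSeries ℚ) * traces p f h

/-- The pairs `(c, d)` of vectors `c ∈ {0, …, p - 1}^m`, `d ∈ {0, …, p - 1}^r` with `c ≠ 0`. -/
abbrev Index (p m r : ℕ) : Type :=
  {v : (Fin m → Fin p) × (Fin r → Fin p) // ∃ j, (v.1 j : ℕ) ≠ 0}

/-- `∑ c_j f_j(x, t) + ∑ d_i h_i(t) x`. -/
noncomputable def comb {k : Type} [Field k] {p m r : ℕ} (f : Fin m → k[X][X]) (h : Fin r → k[X])
    (v : Index p m r) : k[X][X] :=
  ∑ j, ((v.1.1 j : ℕ) : k[X][X]) * f j + ∑ i, ((v.1.2 i : ℕ) : k[X][X]) * (C (h i) * X)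

/-- Let every combination `v = ∑ c_j f_j(x, t) + ∑ d_i h_i(t) x` with `c ≠ 0` have the shape
`γ x^a + … + u_v H_{v,1}(t) ⋯ H_{v,e_v}(t)` with `γ ≠ 0`, all monomials on or below the segment
joining `x^a` and `t^b`, `a > 1` and `b > 0` coprime, `b (a - 1) ∣ p - 1`, and
distinct monic irreducible `H_{v,i}` of total degree `b`. Write the `L`-function of the Jacobian
of the curve `y_j^p - y_j = f_j(x, t)/x` over the function field of `z_i^p - z_i = h_i(t)` as
`L = (1 - q T)^ρ M` with `M(1/q) ≠ 0`, and put `q = p^s`, `R = ∑_v (e_v - 1)`,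
`N = s ∑_v hodge(a_v, b_v)`. Then `ρ ≤ R` and `v_p(M(1/q)) ≥ -N`, with equality if and only if
`ρ = R`. -/
theorem result (p : ℕ) (hp : p.Prime) (k : Type) [Field k] [Fintype k] [CharP k p] (s : ℕ)
    (hs : Fintype.card k = p ^ s) (m r : ℕ) (f : Fin m → k[X][X]) (h : Fin r → k[X])
    (a b e : Index p m r → ℕ) (ha : ∀ v, 2 ≤ a v) (hb : ∀ v, 1 ≤ b v)
    (hab : ∀ v, (a v).Coprime (b v)) (hd : ∀ v, b v * (a v - 1) ∣ p - 1)
    (u : Index p m r → k) (hu : ∀ v, u v ≠ 0) (H : ∀ v, Fin (e v) → k[X])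
    (hirr : ∀ v i, Irreducible (H v i)) (hmon : ∀ v i, (H v i).Monic)
    (hinj : ∀ v, Function.Injective (H v)) (hdeg : ∀ v, ∑ i, (H v i).natDegree = b v)
    (hf : ∀ v, HasShape (a v) (b v) (C (u v) * ∏ i, H v i) (comb f h v))
    (L : ℚ[X]) (hL : IsLFunction p f h L) (ρ : ℕ) (M : ℚ[X])
    (hLM : L = (1 - C (Fintype.card k : ℚ) * X) ^ ρ * M)
    (hM : M.eval (1 / (Fintype.card k : ℚ)) ≠ 0) :
    ρ ≤ ∑ v, (e v - 1) ∧
      -((s : ℚ) * ∑ v, hodge (a v) (b v)) ≤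
        (padicValRat p (M.eval (1 / (Fintype.card k : ℚ))) : ℚ) ∧
      ((padicValRat p (M.eval (1 / (Fintype.card k : ℚ))) : ℚ) =
        -((s : ℚ) * ∑ v, hodge (a v) (b v)) ↔ ρ = ∑ v, (e v - 1)) :=
  Pool.Agent.N867.AS.Lau.mainL p hp k s hs m r f h a b e ha hb hab hd u hu H hirr hmon hinj
    (fun v => by rw [natDegree_prod_of_monic _ _ fun i _ => hmon v i, hdeg])
    (fun v => (hf v).wt) (fun v => (hf v).lead) (fun v => (hf v).zero) L hL.1 hL.2 ρ M hLM hM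

end Pool.Agent.Results.MP_1d384c_nt.SimplePole
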