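import Pool.Agent.N970.AVP.Mz
import Pool.Agent.N970.AVP.Ev

/-!
# The rank conjecture for products of quadratic twists of three modular curves over multiquadratic fields

The curves `C_0 = X_0(15) : y² = x (x + 9) (x - 16)`, `C_1 : y² = x (x + 1) (x - 16)` of conductor `17` and
`C_2 = X_0(21) : y² = x (x - 9) (x + 7)` are semistable and have no complex multiplication; `C_{j, m}` is the
twist of `C_j` by `m`. We consider the abelian varieties `A = ∏_i C_{j_i, e_i}` of any dimension, for any
`j_i` and any nonzero integers `e_i`, over the multiquadratic fields `K = ℚ(√d_1, …, √d_r)`, real or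
imaginary, of any degree `2 ^ r`. There is no condition on the `e_i`, on the `d_t`, or on coprimality.

Call `A` good over `K` if the curves `C_{j_i, e_i d_T}` over `ℚ`, `d_T = ∏_{t ∈ T} d_t`, which are the
factors of the Weil restriction of `A` from `K` to `ℚ`, have finitely many rational points and no
element of order two in the Tate-Shafarevich group.

(1) If `A` is good over `K`, then the rank conjecture holds for `A` over `K`: `A(K)` is finite, `L(A/K, s)`
extends to an entire function whose order at `s = 1` is the rank of `A(K)`, both being zero; and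
`Ш(A/K)[2^∞]` is finite and killed by `2 ^ r`.
(2) *Random abelian varieties over `ℚ`.* The proportion of the good `A` among all the products with
squarefree `e_i`, `|e_i| ≤ X`, tends to `∏_i δ_{j_i}`, `δ_0 = η / 2 = 0.1444…`, `δ_1 = c / 2 = 0.2097…`,
`δ_2 = 137 η / 256 = 0.1545…`, where `η = ∏ (1 - 2^{-i})` and `c = ∏ (1 - 2^{-(2 i - 1)})`.
(3) *Random quadratic fields.* The proportion of the quadratic fields `K`, real or imaginary, ordered by
the discriminant, over which a product `A` of the curves `C_0`, `C_1`, `C_2` is good, is for every `A` exactly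
`δ_S`, `S` the set of the `j` such that `C_j` occurs in `A`: `δ_j` if `S = {j}`, `433 η c / 1728 = 0.0303…` if
`S = {0, 1}`, `443 η / 3072 = 0.0416…` if `S = {0, 2}`, `2461 η c / 9216 = 0.0323…` if `S = {1, 2}`, and
`8065 η c / 110592 = 0.0088…` if all the three curves occur.
(4) *Ideal classes.* For the imaginary quadratic fields `K` in which `3` is not inert and `5` is not
split (for `X_0(15)`), `3` is not split and `7` is not inert (for `X_0(21)`), the product
`X_0(15)^a × X_0(21)^b` is good over `K` if and only if `K` has no ideal class of order four. These are a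
proportion of exactly `η` of the fields of the family.
(5) *Random twists and random extensions.* For every `F = ℚ(√d_1, …, √d_r)` with squarefree
`d_t ≡ 1, 49 mod 60` and every product `A` of twists `C_{0, - e_i}`, the `e_i` being up to squares squarefree
and `≡ 23, 47 mod 60`, the twist of `A` by `√D` is good over `F` for the squarefree `D ≡ 1, 49 mod 60` of
natural density exactly `η ^ c(A, F)`, `c(A, F)` the number of the different curves `C_{0, - e_i d_T}`; if `A`
is good over `F`, it is good over `F(√D)` for `D` of the same density.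
(6) *Every quadratic field.* Let `K = ℚ(√d)` be any quadratic field, real or imaginary, except that `17` does
not split in `K` if `K` is imaginary. Then for infinitely many squarefree `m` all the powers `C_{1, m}^g` are
good over `K`. If `K` is imaginary and `17` splits in `K`, then no `C_{1, m}` is good over `K` (the root
number of `C_{1, m}` over `K` is `-1`).

(1) rests on the theorems for one curve over `ℚ` (problem `MP_696deb_nt`, files `Conductor15`,
`Conductor17`, `Conductor21`, joint work of helpers 969, 877, 809, 970, 971, 972, 973, 974, 975, 99, 218,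
402, 575, 637, 816, 844, 855, 871, 875, 878, 886, 890, 916, 919, 958 and others) and on the factorization
of the `L`-function and the 2-primary part of `Ш` over multiquadratic fields (helpers 687, 723, 494, 413,
841 and others); (5) is due to helper856 (joint law of helpers 588, 763, 789, 814, 856), (6) to helper809; the densities for
one curve are due to helpers 916 and 919, the joint law of the three curves to helpers 809, 877, 963, 972,
975.
-/

set_option autoImplicit false

open NumberField IsDedekindDomain Filter Topology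

namespace Pool.Agent.Results.MP_1d384c_nt.TwistProducts

/-- the coefficient `a` of the equation `y² = x³ + a x + b` of the twist by `m` of the curve `C_j` -/
def A (j : Fin 3) (m : ℤ) : ℤ := (![-12987, -91, -5211] : Fin 3 → ℤ) j * m ^ 2

/-- the coefficient `b` of the equation `y² = x³ + a x + b` of the twist by `m` of the curve `C_j` -/
def B (j : Fin 3) (m : ℤ) : ℤ := (![-263466, -330, -31050] : Fin 3 → ℤ) j * m ^ 3

/-- the twist `C_{j, m}` by `m` of the curve `C_j`, over the field `K` -/
def E (K : Type) [Field K] (j : Fin 3) (m : ℤ) : WeierstrassCurve K :=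
  { a₁ := 0, a₂ := 0, a₃ := 0, a₄ := (A j m : K), a₆ := (B j m : K) }

/-- `C_{j, m}(ℚ)` is finite and `Ш(C_{j, m}/ℚ)` has no element of order two -/
def RankZeroShaTwo (j : Fin 3) (m : ℤ) : Prop :=
  Finite (E ℚ j m).toAffine.Point ∧ ∀ x : Pool.Agent.TH841.NF.D.Sha (E ℚ j m), 2 • x = 0 → x = 0

/-- `ℚ(√d_1, …, √d_r)` has degree `2 ^ r` -/
def Independent {r : ℕ} (d : Fin r → ℤ) : Prop :=
  ∀ T : Finset (Fin r), T.Nonempty → ¬ IsSquare (∏ t ∈ T, d t)

/-- `K = ℚ(√d_1, …, √d_r)` -/
def IsMultiquadratic {r : ℕ} (d : Fin r → ℤ) (K : Type) [Field K] [NumberField K] : Prop :=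
  ∃ x : Fin r → K, (∀ t, x t ^ 2 = (d t : K)) ∧ IntermediateField.adjoin ℚ (Set.range x) = ⊤

/-- the group `A(K)` for the product `A` of the curves `C_{j i, e i}` -/
abbrev AK {ι : Type} (K : Type) [Field K] (j : ι → Fin 3) (e : ι → ℤ) : Type :=
  ∀ i, (E K (j i) (e i)).toAffine.Point

/-- the number `q_v` of elements of the residue field of a finite place `v` of `K` -/
noncomputable def qv (K : Type) [Field K] (v : HeightOneSpectrum (𝓞 K)) : ℕ :=
  Nat.card (𝓞 K ⧸ v.asIdeal)

/-- `a_v = q_v + 1 - #E(k_v)` for `E : y² = x³ + a x + b`, that is `q_v` minus the number of affine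
points over the residue field -/
noncomputable def av (K : Type) [Field K] (a b : ℤ) (v : HeightOneSpectrum (𝓞 K)) : ℤ :=
  (qv K v : ℤ) - Nat.card {z : (𝓞 K ⧸ v.asIdeal) × (𝓞 K ⧸ v.asIdeal) //
    z.2 ^ 2 = z.1 ^ 3 + (a : 𝓞 K ⧸ v.asIdeal) * z.1 + (b : 𝓞 K ⧸ v.asIdeal)}

open Classical in
/-- `F` is entire and is, for `Re s > 3/2`, the `L`-function of the product of the curves `C_{j i, e i}`
over `K` without the Euler factors at the places dividing `3570 · D = 2 · 3 · 5 · 7 · 17 · D` and the
`e i` -/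
def IsL {ι : Type} [Fintype ι] (K : Type) [Field K] (j : ι → Fin 3) (e : ι → ℤ) (D : ℤ)
    (F : ℂ → ℂ) : Prop :=
  Differentiable ℂ F ∧ ∀ s : ℂ, (3 : ℝ) / 2 < s.re →
    HasProd (fun v : HeightOneSpectrum (𝓞 K) =>
      if ((3570 * (∏ i, e i) * D : ℤ) : 𝓞 K) ∈ v.asIdeal then 1 else
        ∏ i, (1 - (av K (A (j i) (e i)) (B (j i) (e i)) v : ℂ) * (qv K v : ℂ) ^ (-s) +
          (qv K v : ℂ) ^ (1 - 2 * s))⁻¹) (F s)

open Classical in
/-- the rank conjecture for the product `A` of the curves `C_{j i, e i}` over `K`, with the rank and the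
order zero, and the finiteness of `Ш(A/K)[2^∞]`, the sum of the groups of the factors, which is killed
by `2 ^ r` -/
def BSDZero {ι : Type} [Fintype ι] (K : Type) [Field K] [NumberField K] (j : ι → Fin 3)
    (e : ι → ℤ) (D : ℤ) (r : ℕ) : Prop :=
  Finite (AK K j e) ∧ Module.finrank ℤ (AK K j e) = 0 ∧ (∃ F : ℂ → ℂ, IsL K j e D F) ∧
    (∀ F : ℂ → ℂ, IsL K j e D F → analyticOrderAt F 1 = (Module.finrank ℤ (AK K j e) : ℕ∞)) ∧
    ∀ i, {y : Pool.Agent.TH841.NF.D.Sha (E K (j i) (e i)) | ∃ k : ℕ, (2 ^ k : ℕ) • y = 0}.Finite ∧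
      ∀ (k : ℕ) (y : Pool.Agent.TH841.NF.D.Sha (E K (j i) (e i))), (2 ^ k : ℕ) • y = 0 →
        (2 ^ r : ℕ) • y = 0

/-- `A` is good over `K = ℚ(√d_1, …, √d_r)`: the curves `C_{j_i, e_i ∏_{t ∈ T} d_t}` over `ℚ`, which are the
factors of the Weil restriction of `A` from `K` to `ℚ`, have finitely many rational points and no
element of order two in the Tate-Shafarevich group -/
def Good {ι : Type} {r : ℕ} (d : Fin r → ℤ) (j : ι → Fin 3) (e : ι → ℤ) : Prop :=
  ∀ i, ∀ T : Finset (Fin r), RankZeroShaTwo (j i) (e i * ∏ t ∈ T, d t)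

/-- the proportions `η / 2`, `c / 2`, `137 η / 256` -/
noncomputable def delta : Fin 3 → ℝ :=
  ![(∏' i : ℕ, (1 - (1 / 2 : ℝ) ^ (i + 1))) / 2, (∏' i : ℕ, (1 - (1 / 2 : ℝ) ^ (2 * i + 1))) / 2,
    137 / 256 * ∏' i : ℕ, (1 - (1 / 2 : ℝ) ^ (i + 1))]

/-- the proportions `δ_S`, `S` the (nonempty) set of the `j` such that `C_j` occurs: `η / 2`, `c / 2`,
`137 η / 256` for one curve, `433 η c / 1728` for `S = {0, 1}`, `443 η / 3072` for `S = {0, 2}`,
`2461 η c / 9216` for `S = {1, 2}`, `8065 η c / 110592` for all three -/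
noncomputable def deltaS (S : Finset (Fin 3)) : ℝ :=
  if 1 ∈ S then
    if 0 ∈ S then
      (if 2 ∈ S then 8065 / 110592 else 433 / 1728) *
        ((∏' i : ℕ, (1 - (1 / 2 : ℝ) ^ (i + 1))) * ∏' i : ℕ, (1 - (1 / 2 : ℝ) ^ (2 * i + 1)))
    else if 2 ∈ S then
      2461 / 9216 *
        ((∏' i : ℕ, (1 - (1 / 2 : ℝ) ^ (i + 1))) * ∏' i : ℕ, (1 - (1 / 2 : ℝ) ^ (2 * i + 1)))
    else (∏' i : ℕ, (1 - (1 / 2 : ℝ) ^ (2 * i + 1))) / 2
  else
    (if 0 ∈ S then (if 2 ∈ S then 443 / 3072 else 1 / 2) else 137 / 256) *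
      ∏' i : ℕ, (1 - (1 / 2 : ℝ) ^ (i + 1))

open Classical in
/-- the number of the families `(e i)` of squarefree integers, `|e i| ≤ X`, with the property `P` -/
noncomputable def countFam {ι : Type} [Fintype ι] (P : (ι → ℤ) → Prop) (X : ℕ) : ℕ :=
  ((Fintype.piFinset fun _ : ι => Finset.Icc (-(X : ℤ)) X).filter fun e =>
    (∀ i, Squarefree (e i)) ∧ P e).card

/-- `D` is a fundamental discriminant (`1` included) -/
def Fund (D : ℤ) : Prop := (Squarefree D ∧ D % 4 = 1) ∨
  ∃ m : ℤ, D = 4 * m ∧ Squarefree m ∧ (m % 4 = 2 ∨ m % 4 = 3)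

open Classical in
/-- the number of the quadratic fields with a discriminant `D`, `|D| ≤ X`, which has the property `P` -/
noncomputable def countQuad (P : ℤ → Prop) (X : ℕ) : ℕ :=
  ((Finset.Icc (-(X : ℤ)) X).filter fun D => Fund D ∧ D ≠ 1 ∧ P D).card

/-- the local conditions on the quadratic field of discriminant `D` for the curve `C_j`: `3` is not
inert and `5` is not split for `X_0(15)`, `3` is not split and `7` is not inert for `X_0(21)`; the curve
of conductor `17` is not allowed -/
def Allowed : Fin 3 → ℤ → Prop :=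
  ![fun D => D % 3 ≠ 2 ∧ ¬ (D % 5 = 1 ∨ D % 5 = 4), fun _ => False,
    fun D => D % 3 ≠ 1 ∧ ¬ (D % 7 = 3 ∨ D % 7 = 5 ∨ D % 7 = 6)]

/-- the ideal class group of `ℚ(√D)` has no element of order four -/
def NoOrderFour (D : ℤ) : Prop :=
  ∀ (K : Type) [Field K] [NumberField K], Module.finrank ℚ K = 2 →
    (∃ s : K, s ^ 2 = (D : K)) →
    ∀ c : ClassGroup (NumberField.RingOfIntegers K), c ^ 4 = 1 → c ^ 2 = 1

/-- the class of the squarefree `n` with `n ≡ 23, 47 mod 60` -/
def Twist (n : ℕ) : Prop := Squarefree n ∧ (n % 60 = 23 ∨ n % 60 = 47)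

/-- the class of the squarefree `d` with `d ≡ 1, 49 mod 60` -/
def Disc (d : ℕ) : Prop := Squarefree d ∧ (d % 60 = 1 ∨ d % 60 = 49)

/-- up to a square `z` has the property `C` -/
def UpToSq (C : ℕ → Prop) (z : ℕ) : Prop := ∃ n k : ℕ, C n ∧ k ≠ 0 ∧ z = n * k ^ 2

/-- the product of the twists of `X_0(15)` by the `- e i` is good over `ℚ(√d_1, …, √d_r)` -/
def GoodN {ι : Type} {r : ℕ} (d : Fin r → ℕ) (e : ι → ℕ) : Prop :=
  Good (fun t => (d t : ℤ)) (fun _ => 0) fun i => -(e i : ℤ)

/-- the number of the different curves among the curves `C_{0, - e_i ∏_{t ∈ T} d_t}` over `ℚ`, that is of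
the different classes modulo squares of the numbers `e_i ∏_{t ∈ T} d_t` -/
noncomputable def curves {ι : Type} {r : ℕ} (d : Fin r → ℕ) (e : ι → ℕ) : ℕ :=
  Set.ncard {s : ℕ | Squarefree s ∧ ∃ i, ∃ T : Finset (Fin r), ∃ k : ℕ, k ≠ 0 ∧
    e i * ∏ t ∈ T, d t = s * k ^ 2}

/-- the limit `(1 - 1/2) (1 - 1/4) (1 - 1/8) ⋯` -/
noncomputable def eta : ℝ := ∏' i : ℕ, (1 - (1 / 2 : ℝ) ^ (i + 1))

open Classical in
/-- the number of the `m ≤ X` with the property `P` -/
noncomputable def count (P : ℕ → Prop) (X : ℕ) : ℕ := ((Finset.Icc 1 X).filter fun m => P m).card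

/-- among the numbers with the property `P`, those with the property `Q` have natural density `δ` -/
def HasDensity (P Q : ℕ → Prop) (δ : ℝ) : Prop :=
  Tendsto (fun X : ℕ => (count (fun m => P m ∧ Q m) X : ℝ) / (count P X : ℝ)) atTop (𝓝 δ)

/-- **The rank conjecture for products of quadratic twists of three modular curves over multiquadratic
fields.** -/
theorem result {ι : Type} [Fintype ι] [Nonempty ι] :
    -- the rank conjecture for good products over all multiquadratic fields
    (∀ (r : ℕ) (d : Fin r → ℤ), Independent d → ∀ (j : ι → Fin 3) (e : ι → ℤ), (∀ i, e i ≠ 0) →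
      Good d j e → ∀ (K : Type) [Field K] [NumberField K], IsMultiquadratic d K →
        Module.finrank ℚ K = 2 ^ r ∧ BSDZero K j e (∏ t, d t) r) ∧
    -- the proportion of the good products over `ℚ` among all products
    (∀ j : ι → Fin 3, Tendsto (fun X : ℕ =>
      (countFam (fun e : ι → ℤ => Good (Fin.elim0 : Fin 0 → ℤ) j e) X : ℝ) /
        (countFam (fun _ : ι → ℤ => True) X : ℝ)) atTop (nhds (∏ i, delta (j i)))) ∧
    -- the proportion of the quadratic fields over which the product of the `C_{j_i}` is good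
    (∀ j : ι → Fin 3, Tendsto (fun X : ℕ =>
      (countQuad (fun D => Good (fun _ : Fin 1 => D) j (fun _ => 1)) X : ℝ) /
        (countQuad (fun _ => True) X : ℝ)) atTop (nhds (deltaS (Finset.univ.image j)))) ∧
    -- products of `X_0(15)` and `X_0(21)` over imaginary quadratic fields: ideal classes of order four
    (∀ (j : ι → Fin 3) (D : ℤ), Fund D → D < 0 → (∀ i, Allowed (j i) D) →
      (Good (fun _ : Fin 1 => D) j (fun _ => 1) ↔ NoOrderFour D)) ∧
    (∀ j : ι → Fin 3, (∀ i, j i ≠ 1) → Tendsto (fun X : ℕ =>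
      (countQuad (fun D => (D < 0 ∧ ∀ i, Allowed (j i) D) ∧
        Good (fun _ : Fin 1 => D) j (fun _ => 1)) X : ℝ) /
        (countQuad (fun D => D < 0 ∧ ∀ i, Allowed (j i) D) X : ℝ)) atTop
      (nhds (∏' i : ℕ, (1 - (1 / 2 : ℝ) ^ (i + 1))))) ∧
    -- fixed field, fixed product of twists of `X_0(15)`, random twist; random extension of the field
    (∀ (r : ℕ) (d : Fin r → ℕ), (∀ t, Disc (d t)) →
      (∀ e : ι → ℕ, (∀ i, UpToSq Twist (e i)) →
        HasDensity Disc (fun D => GoodN d fun i => e i * D) (eta ^ curves d e)) ∧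
      (∀ e : ι → ℕ, (∀ i, UpToSq Disc (e i)) →
        HasDensity Twist (fun n => GoodN d fun i => e i * n) (eta ^ curves d e)) ∧
      (∀ e : ι → ℕ, (∀ i, UpToSq Twist (e i)) → GoodN d e →
        HasDensity Disc (fun D => GoodN (Fin.snoc d D : Fin (r + 1) → ℕ) e)
          (eta ^ curves d e))) ∧
    -- powers of twists of the curve of conductor `17` over every quadratic field
    (∀ d : ℤ, Squarefree d →
      (¬ (d < 0 ∧ jacobiSym d 17 = 1) → ∀ B : ℕ, ∃ m : ℤ, Squarefree m ∧ (B : ℤ) < |m| ∧
        Good (fun _ : Fin 1 => d) (fun _ : ι => 1) fun _ => m) ∧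
      (d < 0 ∧ jacobiSym d 17 = 1 → ∀ m : ℤ, m ≠ 0 →
        ¬ Good (fun _ : Fin 1 => d) (fun _ : ι => 1) fun _ => m)) ∧
    0.1443 < delta 0 ∧ delta 0 < 0.1445 ∧ 0.2096 < delta 1 ∧ delta 1 < 0.2098 ∧
      0.1544 < delta 2 ∧ delta 2 < 0.1547 := by
  obtain ⟨h1, h2, h3, h4, h5, h6, h7⟩ :=
    Pool.Agent.N970.AVP.mainZ (ι := ι) Pool.Agent.N970.AVP.totF
  exact ⟨h1, h2, h3, h4, h5, h6, fun d hs => Pool.Agent.N970.AVP.every_quad hs, h7⟩

end Pool.Agent.Results.MP_1d384c_nt.TwistProducts
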